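import Mathlib
import Pool.Agent.K1H9.RP.Stm

set_option autoImplicit false

/-!
# Project RP, piece QP: comparison of `Irad d j` and `Irad d (d + 1 - j)`
-/

namespace Pool.Agent.K1H16.RP

open MeasureTheory Pool.Agent.K1H9.RP

noncomputable def kp (t x : ℝ) : ℝ := if 0 < x then Real.exp (-t * x ^ 2) else 0
noncomputable def km (t x : ℝ) : ℝ := if x < 0 then Real.exp (-t * x ^ 2) else 0
noncomputable def K (κ f : ℝ → ℝ) (c : ℝ) : ℝ := ∫ x, κ x * f (c + x)

/-- bounded measurable -/
def BMf (f : ℝ → ℝ) : Prop := Measurable f ∧ ∃ C, ∀ x, |f x| ≤ C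

/-- kernels -/
def Ker (κ : ℝ → ℝ) : Prop := Measurable κ ∧ Integrable κ

theorem kp_ker {t : ℝ} (ht : 0 < t) : Ker (kp t) := by
  have hm : Measurable (kp t) :=
    Measurable.ite measurableSet_Ioi (by fun_prop) measurable_const
  refine ⟨hm, (integrable_exp_neg_mul_sq ht).mono hm.aestronglyMeasurable ?_⟩
  refine Filter.Eventually.of_forall fun x => ?_
  unfold kp
  split_ifs
  · exact le_rfl
  · rw [norm_zero]; positivity

theorem km_ker {t : ℝ} (ht : 0 < t) : Ker (km t) := by
  have hm : Measurable (km t) :=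
    Measurable.ite measurableSet_Iio (by fun_prop) measurable_const
  refine ⟨hm, (integrable_exp_neg_mul_sq ht).mono hm.aestronglyMeasurable ?_⟩
  refine Filter.Eventually.of_forall fun x => ?_
  unfold km
  split_ifs
  · exact le_rfl
  · rw [norm_zero]; positivity

theorem kp_nonneg (t x : ℝ) : 0 ≤ kp t x := by unfold kp; split_ifs <;> positivity
theorem km_nonneg (t x : ℝ) : 0 ≤ km t x := by unfold km; split_ifs <;> positivity

theorem int_mul {X : Type} [MeasurableSpace X] {μ : Measure X} {κ g : X → ℝ}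
    (hκ : Integrable κ μ) (hg : Measurable g) {C : ℝ} (hC : ∀ x, |g x| ≤ C) :
    Integrable (fun x => κ x * g x) μ := by
  have := hκ.mul_bdd (c := C) hg.aestronglyMeasurable
    (Filter.Eventually.of_forall fun x => by rw [Real.norm_eq_abs]; exact hC x)
  exact this

theorem K_bm {κ f : ℝ → ℝ} (hκ : Ker κ) (hf : BMf f) : BMf (K κ f) := by
  obtain ⟨hf, C, hC⟩ := hf
  constructor
  · have h1 : StronglyMeasurable (Function.uncurry fun c x : ℝ => κ x * f (c + x)) := by
      apply Measurable.stronglyMeasurable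
      have := hκ.1
      simp only [Function.uncurry_def]
      fun_prop
    exact (h1.integral_prod_right (ν := volume)).measurable
  · refine ⟨∫ x, ‖κ x‖ * C, fun c => ?_⟩
    rw [← Real.norm_eq_abs]
    refine norm_integral_le_of_norm_le (hκ.2.norm.mul_const C) ?_
    refine Filter.Eventually.of_forall fun x => ?_
    rw [norm_mul]
    exact mul_le_mul_of_nonneg_left (by rw [Real.norm_eq_abs]; exact hC _) (norm_nonneg _)

theorem K_K {κ κ' f : ℝ → ℝ} (hκ : Ker κ) (hκ' : Ker κ') (hf : BMf f) (c : ℝ) :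
    Integrable (fun p : ℝ × ℝ => κ p.1 * κ' p.2 * f (c + p.1 + p.2)) ∧
    K κ (K κ' f) c = ∫ p : ℝ × ℝ, κ p.1 * κ' p.2 * f (c + p.1 + p.2) := by
  obtain ⟨hf, C, hC⟩ := hf
  have h1 : Integrable (fun p : ℝ × ℝ => κ p.1 * κ' p.2 * f (c + p.1 + p.2)) := by
    refine int_mul (hκ.2.mul_prod hκ'.2) (g := fun p : ℝ × ℝ => f (c + p.1 + p.2))
      (by fun_prop) (fun p => hC _)
  refine ⟨h1, ?_⟩
  rw [Measure.volume_eq_prod] at h1 ⊢
  rw [integral_prod _ h1]
  unfold K
  refine integral_congr_ae (Filter.Eventually.of_forall fun x => ?_)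
  simp only
  rw [← integral_const_mul]
  refine integral_congr_ae (Filter.Eventually.of_forall fun y => ?_)
  simp only
  ring

theorem K_comm {κ κ' f : ℝ → ℝ} (hκ : Ker κ) (hκ' : Ker κ') (hf : BMf f) :
    K κ (K κ' f) = K κ' (K κ f) := by
  funext c
  rw [(K_K hκ hκ' hf c).2, (K_K hκ' hκ hf c).2, Measure.volume_eq_prod,
    ← integral_prod_swap]
  refine integral_congr_ae (Filter.Eventually.of_forall fun p => ?_)
  simp only [Prod.fst_swap, Prod.snd_swap]
  rw [mul_comm (κ p.2), add_right_comm]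

/-- an affine reflection of the plane -/
noncomputable def reflE (c : ℝ) : ℝ × ℝ ≃ᵐ ℝ × ℝ where
  toFun p := (-c - p.2, -c - p.1)
  invFun p := (-c - p.2, -c - p.1)
  left_inv p := by ext <;> simp
  right_inv p := by ext <;> simp
  measurable_toFun := by
    change Measurable fun p : ℝ × ℝ => (-c - p.2, -c - p.1); fun_prop
  measurable_invFun := by
    change Measurable fun p : ℝ × ℝ => (-c - p.2, -c - p.1); fun_prop

theorem refl_mp (c : ℝ) : MeasurePreserving (reflE c)
    (volume : Measure (ℝ × ℝ)) volume := by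
  rw [Measure.volume_eq_prod]
  have h1 : MeasurePreserving (fun x : ℝ => -c - x) volume volume :=
    Measure.measurePreserving_sub_left volume (-c)
  exact (h1.prod h1).comp Measure.measurePreserving_swap

theorem refl_int (c : ℝ) (F : ℝ × ℝ → ℝ) :
    ∫ p : ℝ × ℝ, F (-c - p.2, -c - p.1) = ∫ p, F p :=
  (refl_mp c).integral_comp' (f := reflE c) F

/-- odd and positive on the positive half line -/
def Good (f : ℝ → ℝ) : Prop := (∀ x, f (-x) = -f x) ∧ ∀ x, 0 < x → 0 < f x

theorem pair_good {t : ℝ} (ht : 0 < t) {E : ℝ → ℝ} (hE : BMf E) (hG : Good E) :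
    Good (K (km t) (K (kp t) E)) := by
  have key : ∀ c, K (km t) (K (kp t) E) c =
      -∫ p : ℝ × ℝ, km t (-c - p.2) * kp t (-c - p.1) * E (c + p.1 + p.2) := by
    intro c
    rw [(K_K (km_ker ht) (kp_ker ht) hE c).2, ← refl_int c, ← integral_neg]
    refine integral_congr_ae (Filter.Eventually.of_forall fun p => ?_)
    simp only
    have : c + (-c - p.2) + (-c - p.1) = -(c + p.1 + p.2) := by ring
    rw [this, hG.1]; ring
  constructor
  · intro c
    rw [(K_K (km_ker ht) (kp_ker ht) hE (-c)).2, (K_K (km_ker ht) (kp_ker ht) hE c).2,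
      ← refl_int 0, ← integral_neg]
    refine integral_congr_ae (Filter.Eventually.of_forall fun p => ?_)
    simp only
    have h1 : -c + (-0 - p.2) + (-0 - p.1) = -(c + p.1 + p.2) := by ring
    have h2 : km t (-0 - p.2) = kp t p.2 := by
      unfold km kp
      simp only [neg_zero, zero_sub, neg_lt_zero, neg_sq]
    have h3 : kp t (-0 - p.1) = km t p.1 := by
      unfold km kp
      simp only [neg_zero, zero_sub, Left.neg_pos_iff, neg_sq]
    rw [h1, h2, h3, hG.1]; ring
  · intro c hc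
    have hI1 := (K_K (km_ker ht) (kp_ker ht) hE c).1
    have hI2 : Integrable (fun p : ℝ × ℝ =>
        km t (-c - p.2) * kp t (-c - p.1) * E (c + p.1 + p.2)) := by
      have h := (refl_mp c).integrable_comp_of_integrable hI1
      refine h.neg.congr (Filter.Eventually.of_forall fun p => ?_)
      simp only [Function.comp, reflE, MeasurableEquiv.coe_mk, Equiv.coe_fn_mk, Pi.neg_apply]
      have : c + (-c - p.2) + (-c - p.1) = -(c + p.1 + p.2) := by ring
      rw [this, hG.1]; ring
    have hsum : 2 * K (km t) (K (kp t) E) c = ∫ p : ℝ × ℝ,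
        (km t p.1 * kp t p.2 * E (c + p.1 + p.2) -
          km t (-c - p.2) * kp t (-c - p.1) * E (c + p.1 + p.2)) := by
      rw [integral_sub hI1 hI2, ← (K_K (km_ker ht) (kp_ker ht) hE c).2]
      have := key c
      linarith
    have hE0 : E 0 = 0 := by have := hG.1 0; rw [neg_zero] at this; linarith
    have hEn : ∀ z, z < 0 → E z < 0 := by
      intro z hz
      have := hG.2 (-z) (by linarith)
      rw [hG.1] at this; linarith
    have hpos1 : ∀ x y : ℝ, 0 < c + x + y →
        km t (-c - y) * kp t (-c - x) ≤ km t x * kp t y := by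
      intro x y hz
      by_cases h1 : -c - y < 0 ∧ 0 < -c - x
      · obtain ⟨h1, h2⟩ := h1
        have hx : x < 0 := by linarith
        have hy : 0 < y := by linarith
        unfold km kp
        rw [if_pos h1, if_pos h2, if_pos hx, if_pos hy, ← Real.exp_add, ← Real.exp_add]
        apply Real.exp_le_exp.2
        have h5 : 0 < t * (c * (c + x + y)) := mul_pos ht (mul_pos hc hz)
        nlinarith
      · have h0 : km t (-c - y) * kp t (-c - x) = 0 := by
          unfold km kp
          by_cases h2 : -c - y < 0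
          · have h3 : ¬ 0 < -c - x := fun h => h1 ⟨h2, h⟩
            rw [if_neg h3, mul_zero]
          · rw [if_neg h2, zero_mul]
        rw [h0]
        exact mul_nonneg (km_nonneg _ _) (kp_nonneg _ _)
    have hpos2 : ∀ x y : ℝ, 0 < c + x + y → x < 0 → 0 < y →
        km t (-c - y) * kp t (-c - x) < km t x * kp t y := by
      intro x y hz hx hy
      by_cases h1 : -c - y < 0 ∧ 0 < -c - x
      · obtain ⟨h1, h2⟩ := h1
        unfold km kp
        rw [if_pos h1, if_pos h2, if_pos hx, if_pos hy, ← Real.exp_add, ← Real.exp_add]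
        apply Real.exp_lt_exp.2
        have h5 : 0 < t * (c * (c + x + y)) := mul_pos ht (mul_pos hc hz)
        nlinarith
      · have h0 : km t (-c - y) * kp t (-c - x) = 0 := by
          unfold km kp
          by_cases h2 : -c - y < 0
          · have h3 : ¬ 0 < -c - x := fun h => h1 ⟨h2, h⟩
            rw [if_neg h3, mul_zero]
          · rw [if_neg h2, zero_mul]
        rw [h0]
        unfold km kp
        rw [if_pos hx, if_pos hy]
        positivity
    have hneg : ∀ x y : ℝ, c + x + y < 0 →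
        km t x * kp t y ≤ km t (-c - y) * kp t (-c - x) := by
      intro x y hz
      have := hpos1 (-c - y) (-c - x) (by linarith)
      have e1 : -c - (-c - x) = x := by ring
      have e2 : -c - (-c - y) = y := by ring
      rwa [e1, e2] at this
    have hnn : ∀ p : ℝ × ℝ, 0 ≤ km t p.1 * kp t p.2 * E (c + p.1 + p.2) -
          km t (-c - p.2) * kp t (-c - p.1) * E (c + p.1 + p.2) := by
      intro p
      rw [← sub_mul]
      rcases lt_trichotomy (c + p.1 + p.2) 0 with h | h | h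
      · exact mul_nonneg_of_nonpos_of_nonpos (by linarith [hneg p.1 p.2 h]) (hEn _ h).le
      · rw [h, hE0, mul_zero]
      · exact mul_nonneg (by linarith [hpos1 p.1 p.2 h]) (hG.2 _ h).le
    have h2 : 0 < 2 * K (km t) (K (kp t) E) c := by
      rw [hsum, integral_pos_iff_support_of_nonneg hnn (hI1.sub hI2)]
      have hop : IsOpen {p : ℝ × ℝ | 0 < c + p.1 + p.2 ∧ p.1 < 0 ∧ 0 < p.2} := by
        have o1 : IsOpen {p : ℝ × ℝ | 0 < c + p.1 + p.2} :=
          isOpen_lt continuous_const (by fun_prop)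
        have o2 : IsOpen {p : ℝ × ℝ | p.1 < 0} := isOpen_lt continuous_fst continuous_const
        have o3 : IsOpen {p : ℝ × ℝ | 0 < p.2} := isOpen_lt continuous_const continuous_snd
        exact o1.inter (o2.inter o3)
      have hne : {p : ℝ × ℝ | 0 < c + p.1 + p.2 ∧ p.1 < 0 ∧ 0 < p.2}.Nonempty :=
        ⟨(-1, 2), by constructor <;> norm_num; linarith⟩
      refine lt_of_lt_of_le (hop.measure_pos volume hne) (measure_mono ?_)
      rintro p ⟨h, hx, hy⟩
      rw [Function.mem_support]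
      refine ne_of_gt ?_
      rw [← sub_mul]
      exact mul_pos (by linarith [hpos2 p.1 p.2 h hx hy]) (hG.2 _ h)
    linarith

theorem P_pos {t : ℝ} (ht : 0 < t) {f : ℝ → ℝ} (hf : BMf f) (hp : ∀ x, 0 < x → 0 < f x)
    {c : ℝ} (hc : 0 ≤ c) : 0 < K (kp t) f c := by
  obtain ⟨hm, C, hC⟩ := hf
  have hI : Integrable (fun x => kp t x * f (c + x)) :=
    int_mul (kp_ker ht).2 (g := fun x => f (c + x)) (by fun_prop) (fun x => hC _)
  unfold K
  rw [integral_pos_iff_support_of_nonneg ?_ hI]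
  · refine lt_of_lt_of_le (isOpen_Ioi.measure_pos volume ⟨(1 : ℝ), one_pos⟩)
      (measure_mono (s := Set.Ioi (0 : ℝ)) ?_)
    intro x hx
    rw [Set.mem_Ioi] at hx
    rw [Function.mem_support]
    refine ne_of_gt (mul_pos ?_ (hp _ (by linarith)))
    unfold kp
    rw [if_pos hx]; positivity
  · intro x
    change 0 ≤ kp t x * f (c + x)
    by_cases hx : 0 < x
    · exact mul_nonneg (kp_nonneg _ _) (hp _ (by linarith)).le
    · unfold kp
      rw [if_neg hx, zero_mul]

theorem iter_bm {κ : ℝ → ℝ} (hκ : Ker κ) (k : ℕ) {f : ℝ → ℝ} (hf : BMf f) :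
    BMf ((K κ)^[k] f) := by
  induction k with
  | zero => exact hf
  | succ k ih => rw [Function.iterate_succ_apply']; exact K_bm hκ ih

theorem comm_iter {κ κ' : ℝ → ℝ} (hκ : Ker κ) (hκ' : Ker κ') (k : ℕ) {f : ℝ → ℝ}
    (hf : BMf f) : K κ ((K κ')^[k] f) = (K κ')^[k] (K κ f) := by
  induction k generalizing f with
  | zero => rfl
  | succ k ih =>
    rw [Function.iterate_succ_apply, Function.iterate_succ_apply, ih (K_bm hκ' hf),
      K_comm hκ hκ' hf]

theorem iter_comm {κ κ' : ℝ → ℝ} (hκ : Ker κ) (hκ' : Ker κ') (j k : ℕ) {f : ℝ → ℝ}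
    (hf : BMf f) : (K κ)^[j] ((K κ')^[k] f) = (K κ')^[k] ((K κ)^[j] f) := by
  induction j with
  | zero => rfl
  | succ j ih =>
    rw [Function.iterate_succ_apply', ih, comm_iter hκ hκ' k (iter_bm hκ j hf),
      Function.iterate_succ_apply']

theorem good_iter {t : ℝ} (ht : 0 < t) {E : ℝ → ℝ} (hE : BMf E) (hG : Good E) (j : ℕ) :
    Good ((K (km t))^[j] ((K (kp t))^[j] E)) := by
  induction j generalizing E with
  | zero => exact hG
  | succ j ih =>
    have h1 : (K (km t))^[j + 1] ((K (kp t))^[j + 1] E) =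
        (K (km t))^[j] ((K (kp t))^[j] (K (km t) (K (kp t) E))) := by
      rw [Function.iterate_succ_apply, Function.iterate_succ_apply,
        comm_iter (km_ker ht) (kp_ker ht) j (K_bm (kp_ker ht) hE)]
    rw [h1]
    exact ih (K_bm (km_ker ht) (K_bm (kp_ker ht) hE)) (pair_good ht hE hG)

theorem final_pos {t : ℝ} (ht : 0 < t) {E : ℝ → ℝ} (hE : BMf E) (hG : Good E) (j k : ℕ)
    (hk : 0 < k) : 0 < (K (km t))^[j] ((K (kp t))^[j + k] E) 0 := by
  have h1 : (K (kp t))^[j + k] E = (K (kp t))^[k] ((K (kp t))^[j] E) := by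
    rw [← Function.iterate_add_apply, add_comm]
  have hB := iter_bm (km_ker ht) j (iter_bm (kp_ker ht) j hE)
  have hg := good_iter ht hE hG j
  rw [h1, iter_comm (km_ker ht) (kp_ker ht) j k (iter_bm (kp_ker ht) j hE)]
  set F := (K (km t))^[j] ((K (kp t))^[j] E) with hF
  have h2 : ∀ k, ∀ x, 0 < x → 0 < (K (kp t))^[k] F x := by
    intro k
    induction k with
    | zero => exact hg.2
    | succ k ih =>
      intro x hx
      rw [Function.iterate_succ_apply']
      exact P_pos ht (iter_bm (kp_ker ht) k hB) ih hx.le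
  obtain ⟨k, rfl⟩ : ∃ k', k = k' + 1 := ⟨k - 1, by omega⟩
  rw [Function.iterate_succ_apply']
  exact P_pos ht (iter_bm (kp_ker ht) k hB) (h2 k) le_rfl

/-! ## the `n`-dimensional integral -/

/-- the kernels of the pattern -/
noncomputable def kk (t : ℝ) (j : ℕ) {n : ℕ} (i : Fin n) : ℝ → ℝ :=
  if (i : ℕ) < j then km t else kp t

theorem kk_ker {t : ℝ} (ht : 0 < t) (j : ℕ) {n : ℕ} (i : Fin n) : Ker (kk t j i) := by
  unfold kk; split_ifs
  · exact km_ker ht
  · exact kp_ker ht

noncomputable def JJ (t : ℝ) (j n : ℕ) (f : ℝ → ℝ) (c : ℝ) : ℝ :=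
  ∫ r : Fin n → ℝ, (∏ i, kk t j i (r i)) * f (c + ∑ i, r i)

theorem JJ_int {t : ℝ} (ht : 0 < t) (j n : ℕ) {f : ℝ → ℝ} (hf : BMf f) (c : ℝ) :
    Integrable (fun r : Fin n → ℝ => (∏ i, kk t j i (r i)) * f (c + ∑ i, r i)) := by
  obtain ⟨hm, C, hC⟩ := hf
  refine int_mul (κ := fun r : Fin n → ℝ => ∏ i, kk t j i (r i))
    (g := fun r : Fin n → ℝ => f (c + ∑ i, r i)) ?_ (by fun_prop) (fun r => hC _)
  exact Integrable.fintype_prod fun i => (kk_ker ht j i).2

theorem JJ_succ {t : ℝ} (ht : 0 < t) (j n : ℕ) {f : ℝ → ℝ} (hf : BMf f) (c : ℝ) :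
    JJ t j (n + 1) f c = K (kk t j (0 : Fin (n + 1))) (JJ t (j - 1) n f) c := by
  have hmp := (volume_preserving_piFinSuccAbove (fun _ : Fin (n + 1) => ℝ) 0).symm
  have hint := JJ_int ht j (n + 1) hf c
  have hint' := (hmp.integrable_comp_emb (MeasurableEquiv.measurableEmbedding _)).2 hint
  unfold JJ
  rw [← hmp.integral_comp']
  have hk : ∀ i : Fin n, kk t j (Fin.succ i) = kk t (j - 1) i := by
    intro i
    unfold kk
    have : ((Fin.succ i : Fin (n + 1)) : ℕ) < j ↔ (i : ℕ) < j - 1 := by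
      rw [Fin.val_succ]; omega
    simp only [this]
  have hF : ∀ p : ℝ × (Fin n → ℝ),
      (fun r : Fin (n + 1) → ℝ => (∏ i, kk t j i (r i)) * f (c + ∑ i, r i))
        ((MeasurableEquiv.piFinSuccAbove (fun _ : Fin (n + 1) => ℝ) 0).symm p) =
      kk t j (0 : Fin (n + 1)) p.1 * ((∏ i, kk t (j - 1) i (p.2 i)) *
        f (c + p.1 + ∑ i, p.2 i)) := by
    intro p
    simp only [MeasurableEquiv.piFinSuccAbove_symm_apply, Fin.insertNthEquiv,
      Fin.prod_univ_succ, Fin.sum_univ_succ, Fin.insertNth_zero, Equiv.coe_fn_mk, Fin.cons_zero,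
      Fin.cons_succ, hk, mul_assoc, add_assoc, Fin.zero_succAbove, cast_eq]
  have hint'' : Integrable (fun p : ℝ × (Fin n → ℝ) => kk t j (0 : Fin (n + 1)) p.1 *
      ((∏ i, kk t (j - 1) i (p.2 i)) * f (c + p.1 + ∑ i, p.2 i))) := by
    refine hint'.congr (Filter.Eventually.of_forall fun p => ?_)
    exact hF p
  rw [integral_congr_ae (Filter.Eventually.of_forall hF)]
  rw [Measure.volume_eq_prod] at hint'' ⊢
  rw [integral_prod _ hint'']
  unfold K
  refine integral_congr_ae (Filter.Eventually.of_forall fun x => ?_)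
  simp only
  rw [integral_const_mul]

theorem JJ_eq {t : ℝ} (ht : 0 < t) (n : ℕ) : ∀ (j : ℕ), j ≤ n → ∀ {f : ℝ → ℝ}, BMf f →
    JJ t j n f = (K (km t))^[j] ((K (kp t))^[n - j] f) := by
  induction n with
  | zero =>
    intro j hj f hf
    obtain rfl : j = 0 := by omega
    funext c
    unfold JJ
    rw [volume_pi, Measure.pi_of_empty]
    simp
  | succ n ih =>
    intro j hj f hf
    funext c
    rw [JJ_succ ht j n hf c]
    rcases j with _ | j
    · have h0 : kk t 0 (0 : Fin (n + 1)) = kp t := by simp [kk]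
      rw [h0, Nat.zero_sub, ih 0 (Nat.zero_le _) hf, Nat.sub_zero, Nat.sub_zero,
        Function.iterate_zero_apply, Function.iterate_zero_apply, Function.iterate_succ_apply']
    · have h0 : kk t (j + 1) (0 : Fin (n + 1)) = km t := by simp [kk]
      rw [h0, Nat.add_sub_cancel, ih j (by omega) hf, Function.iterate_succ_apply',
        Nat.add_sub_add_right]

theorem JJ_pos {t : ℝ} (ht : 0 < t) {n j : ℕ} (hj : 2 * j < n) {f : ℝ → ℝ} (hf : BMf f)
    (hG : Good f) : 0 < JJ t j n f 0 := by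
  rw [JJ_eq ht n j (by omega) hf]
  have : n - j = j + (n - 2 * j) := by omega
  rw [this]
  exact final_pos ht hf hG j (n - 2 * j) (by omega)

/-- sign -/
noncomputable def sn (s : ℝ) : ℝ := if 0 < s then 1 else if s < 0 then -1 else 0

theorem sn_meas : Measurable sn :=
  Measurable.ite measurableSet_Ioi measurable_const
    (Measurable.ite measurableSet_Iio measurable_const measurable_const)

theorem sn_abs (s : ℝ) : |sn s| ≤ 1 := by
  unfold sn; split_ifs <;> simp

theorem sn_neg (s : ℝ) : sn (-s) = -sn s := by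
  unfold sn
  rcases lt_trichotomy s 0 with h | h | h
  · rw [if_pos (by linarith), if_neg (by linarith), if_pos h]; ring
  · subst h; simp
  · rw [if_neg (by linarith), if_pos (by linarith), if_pos h]

/-- the function of the sum -/
noncomputable def EE (t ρ s : ℝ) : ℝ := sn s * (Real.exp (-|s|) * s ^ 2 * Real.exp (-t * (s * ρ) ^ 2))

theorem EE_good (t ρ : ℝ) : Good (EE t ρ) := by
  constructor
  · intro x
    unfold EE
    rw [sn_neg, abs_neg]
    have h1 : (-x) ^ 2 = x ^ 2 := by ring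
    have h2 : (-x * ρ) ^ 2 = (x * ρ) ^ 2 := by ring
    rw [h1, h2]; ring
  · intro x hx
    unfold EE sn
    rw [if_pos hx]; positivity

theorem EE_bm {t : ℝ} (ht : 0 < t) (ρ : ℝ) : BMf (EE t ρ) := by
  constructor
  · unfold EE
    have := sn_meas
    fun_prop
  · refine ⟨2, fun x => ?_⟩
    unfold EE
    rw [abs_mul, abs_of_nonneg (a := Real.exp (-|x|) * x ^ 2 * Real.exp (-t * (x * ρ) ^ 2))
      (by positivity)]
    have h1 : Real.exp (-|x|) * x ^ 2 ≤ 2 := by
      have h2 := Real.quadratic_le_exp_of_nonneg (abs_nonneg x)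
      rw [sq_abs] at h2
      rw [Real.exp_neg, inv_mul_le_iff₀ (Real.exp_pos _)]
      have := abs_nonneg x
      linarith
    have h3 : Real.exp (-t * (x * ρ) ^ 2) ≤ 1 := by
      rw [Real.exp_le_one_iff]
      have : 0 ≤ t * (x * ρ) ^ 2 := by positivity
      linarith
    calc |sn x| * (Real.exp (-|x|) * x ^ 2 * Real.exp (-t * (x * ρ) ^ 2)) ≤
        1 * (2 * 1) := by
          apply mul_le_mul (sn_abs x) _ (by positivity) zero_le_one
          exact mul_le_mul h1 h3 (by positivity) (by norm_num)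
      _ = 2 := by norm_num

theorem pat_meas (j n : ℕ) : MeasurableSet {r : Fin n → ℝ | pat j r} := by
  unfold pat
  refine MeasurableSet.inter (s₁ := {r : Fin n → ℝ | ∀ i : Fin n, (i : ℕ) < j → r i < 0})
    (s₂ := {r : Fin n → ℝ | ∀ i : Fin n, j ≤ (i : ℕ) → 0 < r i}) ?_ ?_
  · rw [Set.ofPred_forall]
    refine MeasurableSet.iInter fun i => ?_
    by_cases h : (i : ℕ) < j
    · simp only [h, true_imp_iff]
      exact measurableSet_lt (measurable_pi_apply i) measurable_const
    · simp only [h, false_imp_iff]; exact MeasurableSet.univ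
  · rw [Set.ofPred_forall]
    refine MeasurableSet.iInter fun i => ?_
    by_cases h : j ≤ (i : ℕ)
    · simp only [h, true_imp_iff]
      exact measurableSet_lt measurable_const (measurable_pi_apply i)
    · simp only [h, false_imp_iff]; exact MeasurableSet.univ

theorem prod_kk (t : ℝ) (j : ℕ) {n : ℕ} (r : Fin n → ℝ) :
    ∏ i, kk t j i (r i) = Set.indicator {r : Fin n → ℝ | pat j r}
      (fun r => Real.exp (-t * ∑ i, r i ^ 2)) r := by
  classical
  by_cases h : pat j r
  · rw [Set.indicator_of_mem (show r ∈ {r : Fin n → ℝ | pat j r} from h), Finset.mul_sum,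
      Real.exp_sum]
    refine Finset.prod_congr rfl fun i _ => ?_
    unfold kk
    by_cases hi : (i : ℕ) < j
    · rw [if_pos hi]; unfold km; rw [if_pos (h.1 i hi)]
    · rw [if_neg hi]; unfold kp; rw [if_pos (h.2 i (by omega))]
  · rw [Set.indicator_of_notMem (show r ∉ {r : Fin n → ℝ | pat j r} from h)]
    unfold pat at h
    rw [not_and_or] at h
    rcases h with h | h
    · push Not at h
      obtain ⟨i, hi, hi'⟩ := h
      refine Finset.prod_eq_zero (Finset.mem_univ i) ?_
      unfold kk; rw [if_pos hi]; unfold km; rw [if_neg (by linarith)]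
    · push Not at h
      obtain ⟨i, hi, hi'⟩ := h
      refine Finset.prod_eq_zero (Finset.mem_univ i) ?_
      unfold kk; rw [if_neg (by omega)]; unfold kp; rw [if_neg (by linarith)]

/-- the quadratic form -/
noncomputable def QQ (ρ : ℝ) {n : ℕ} (r : Fin n → ℝ) : ℝ := (∑ i, r i) ^ 2 * ρ ^ 2 + ∑ i, r i ^ 2

/-- signed integrand -/
noncomputable def ZZ (d j : ℕ) (ρ : ℝ) (r : Fin (d + 1) → ℝ) : ℝ :=
  Set.indicator {r : Fin (d + 1) → ℝ | pat j r}
    (fun r => sn (∑ i, r i) * (Real.exp (-|∑ i, r i|) * (∑ i, r i) ^ 2) *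
      ((Real.sqrt (QQ ρ r))⁻¹) ^ (d + 2)) r

/-- reversal with sign -/
noncomputable def flipE (n : ℕ) : (Fin n → ℝ) ≃ᵐ (Fin n → ℝ) where
  toFun r i := -r (Fin.rev i)
  invFun r i := -r (Fin.rev i)
  left_inv r := by funext i; simp
  right_inv r := by funext i; simp
  measurable_toFun := by
    change Measurable fun (r : Fin n → ℝ) i => -r (Fin.rev i); fun_prop
  measurable_invFun := by
    change Measurable fun (r : Fin n → ℝ) i => -r (Fin.rev i); fun_prop

theorem flip_mp (n : ℕ) : MeasurePreserving (flipE n) := by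
  have h1 := volume_measurePreserving_piCongrLeft (fun _ : Fin n => ℝ) (Fin.revPerm (n := n))
  have h2 : MeasurePreserving (fun r : Fin n → ℝ => -r) volume volume :=
    Measure.measurePreserving_neg _
  have h3 := h2.comp h1
  have h4 : ((fun r : Fin n → ℝ => -r) ∘ (MeasurableEquiv.piCongrLeft (fun _ : Fin n => ℝ)
      (Fin.revPerm (n := n)))) = flipE n := by
    funext r i
    have := MeasurableEquiv.piCongrLeft_apply_apply (β := fun _ : Fin n => ℝ) (Fin.revPerm (n := n)) r (Fin.rev i)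
    simp only [Fin.revPerm_apply, Fin.rev_rev] at this
    simp only [Function.comp_apply, Pi.neg_apply]
    rw [this]
    rfl
  rw [h4] at h3
  exact h3

theorem pat_flip {n j : ℕ} (hj : j ≤ n) (r : Fin n → ℝ) : pat (n - j) (flipE n r) ↔ pat j r := by
  unfold pat flipE
  simp only [MeasurableEquiv.coe_mk, Equiv.coe_fn_mk]
  constructor
  · rintro ⟨h1, h2⟩
    constructor
    · intro i hi
      have := h2 (Fin.rev i) (by rw [Fin.val_rev]; omega)
      rw [Fin.rev_rev] at this; linarith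
    · intro i hi
      have := h1 (Fin.rev i) (by rw [Fin.val_rev]; omega)
      rw [Fin.rev_rev] at this; linarith
  · rintro ⟨h1, h2⟩
    constructor
    · intro i hi
      have := h2 (Fin.rev i) (by rw [Fin.val_rev]; omega)
      linarith
    · intro i hi
      have := h1 (Fin.rev i) (by rw [Fin.val_rev]; omega)
      linarith

theorem sum_flip {n : ℕ} (r : Fin n → ℝ) : ∑ i, flipE n r i = -∑ i, r i := by
  unfold flipE
  simp only [MeasurableEquiv.coe_mk, Equiv.coe_fn_mk, Finset.sum_neg_distrib]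
  congr 1
  exact Equiv.sum_comp (Fin.revPerm (n := n)) r

theorem sq_flip {n : ℕ} (r : Fin n → ℝ) : ∑ i, flipE n r i ^ 2 = ∑ i, r i ^ 2 := by
  unfold flipE
  simp only [MeasurableEquiv.coe_mk, Equiv.coe_fn_mk, neg_sq]
  exact Equiv.sum_comp (Fin.revPerm (n := n)) fun i => r i ^ 2

theorem irf_sub {d j : ℕ} (hj : j ≤ d + 1) (ρ : ℝ) (r : Fin (d + 1) → ℝ) :
    irf d j ρ r - irf d (d + 1 - j) ρ (flipE (d + 1) r) = ZZ d j ρ r := by
  classical
  unfold irf ZZ QQ
  simp only [Set.indicator_apply, Set.mem_ofPred_eq, pat_flip hj, sum_flip, sq_flip]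
  by_cases h : pat j r
  · simp only [h, true_and, if_true]
    unfold sn
    rcases lt_trichotomy (∑ i, r i) 0 with h0 | h0 | h0
    · rw [if_neg (by linarith), if_pos (by linarith), if_neg (by linarith), if_pos h0,
        abs_of_neg h0, neg_sq, neg_neg]
      ring
    · rw [h0]; simp
    · rw [if_pos h0, if_neg (by linarith), if_pos h0, abs_of_pos h0]
      ring
  · simp [h]

theorem ZZ_int {d j : ℕ} (hj : j ≤ d + 1) (ρ : ℝ) (h1 : Integrable (irf d j ρ))
    (h2 : Integrable (irf d (d + 1 - j) ρ)) :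
    Integrable (ZZ d j ρ) ∧ Irad d j ρ - Irad d (d + 1 - j) ρ = ∫ r, ZZ d j ρ r := by
  have h3 : Integrable (fun r => irf d (d + 1 - j) ρ (flipE (d + 1) r)) :=
    ((flip_mp (d + 1)).integrable_comp_emb (MeasurableEquiv.measurableEmbedding _)).2 h2
  have h4 : ∫ r, irf d (d + 1 - j) ρ (flipE (d + 1) r) = Irad d (d + 1 - j) ρ :=
    (flip_mp (d + 1)).integral_comp' (irf d (d + 1 - j) ρ)
  have h5 : (fun r => irf d j ρ r - irf d (d + 1 - j) ρ (flipE (d + 1) r)) = ZZ d j ρ :=
    funext fun r => irf_sub hj ρ r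
  constructor
  · rw [← h5]; exact h1.sub h3
  · rw [← h5, integral_sub h1 h3, h4]; rfl

/-- integrand on the product -/
noncomputable def HH (d j : ℕ) (ρ : ℝ) (p : (Fin (d + 1) → ℝ) × ℝ) : ℝ :=
  Set.indicator {r : Fin (d + 1) → ℝ | pat j r}
    (fun r => sn (∑ i, r i) * (Real.exp (-|∑ i, r i|) * (∑ i, r i) ^ 2)) p.1 *
      (p.2 ^ (((d : ℝ) + 2) / 2 - 1) * Real.exp (-(QQ ρ p.1 * p.2)))

theorem HH_meas (d j : ℕ) (ρ : ℝ) : Measurable (HH d j ρ) := by
  have hs := sn_meas
  have h1 : Measurable (fun r : Fin (d + 1) → ℝ => sn (∑ i, r i) *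
      (Real.exp (-|∑ i, r i|) * (∑ i, r i) ^ 2)) := by fun_prop
  have h2 := h1.indicator (pat_meas j (d + 1))
  unfold HH QQ
  refine (h2.comp measurable_fst).mul ?_
  fun_prop

theorem QQ_pos {ρ : ℝ} (hρ : 0 < ρ) {n : ℕ} (r : Fin n → ℝ) (h : ∑ i, r i ≠ 0) : 0 < QQ ρ r := by
  unfold QQ
  have h1 : 0 < (∑ i, r i) ^ 2 * ρ ^ 2 := by positivity
  have h2 : 0 ≤ ∑ i, r i ^ 2 := Finset.sum_nonneg fun i _ => sq_nonneg _
  linarith

theorem gam_int {a Q : ℝ} (ha : 0 < a) (hQ : 0 < Q) :
    IntegrableOn (fun t : ℝ => t ^ (a - 1) * Real.exp (-(Q * t))) (Set.Ioi 0) := by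
  have := integrableOn_rpow_mul_exp_neg_mul_rpow (p := 1) (s := a - 1) (b := Q) (by linarith)
    one_pos hQ
  refine this.congr_fun (fun t _ => ?_) measurableSet_Ioi
  simp only [Real.rpow_one, neg_mul]

theorem sqrt_pow {d : ℕ} {Q : ℝ} (hQ : 0 < Q) :
    (1 / Q) ^ (((d : ℝ) + 2) / 2) = ((Real.sqrt Q)⁻¹) ^ (d + 2) := by
  rw [← Real.sqrt_inv, Real.sqrt_eq_rpow, ← Real.rpow_natCast, ← Real.rpow_mul (by positivity),
    one_div]
  congr 1
  push_cast
  ring

theorem HH_slice {d j : ℕ} {ρ : ℝ} (hρ : 0 < ρ) (r : Fin (d + 1) → ℝ) :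
    Integrable (fun t => HH d j ρ (r, t)) (volume.restrict (Set.Ioi 0)) ∧
    ∫ t in Set.Ioi 0, HH d j ρ (r, t) = Real.Gamma (((d : ℝ) + 2) / 2) * ZZ d j ρ r ∧
    ∫ t in Set.Ioi 0, ‖HH d j ρ (r, t)‖ = Real.Gamma (((d : ℝ) + 2) / 2) * ‖ZZ d j ρ r‖ := by
  classical
  have ha : 0 < ((d : ℝ) + 2) / 2 := by positivity
  by_cases h : pat j r ∧ ∑ i, r i ≠ 0
  · obtain ⟨h1, h2⟩ := h
    have hQ := QQ_pos hρ r h2
    have hI := gam_int ha hQ
    have hv := Real.integral_rpow_mul_exp_neg_mul_Ioi ha hQ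
    set S := sn (∑ i, r i) * (Real.exp (-|∑ i, r i|) * (∑ i, r i) ^ 2) with hS
    have hH : ∀ t, HH d j ρ (r, t) = S * (t ^ (((d : ℝ) + 2) / 2 - 1) *
        Real.exp (-(QQ ρ r * t))) := by
      intro t
      unfold HH
      rw [Set.indicator_of_mem (show r ∈ {r : Fin (d + 1) → ℝ | pat j r} from h1)]
    have hZ : ZZ d j ρ r = S * ((Real.sqrt (QQ ρ r))⁻¹) ^ (d + 2) := by
      unfold ZZ
      rw [Set.indicator_of_mem (show r ∈ {r : Fin (d + 1) → ℝ | pat j r} from h1)]
    simp only [hH, hZ]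
    refine ⟨hI.const_mul S, ?_, ?_⟩
    · rw [integral_const_mul, hv, sqrt_pow hQ]; ring
    · simp only [norm_mul]
      rw [integral_const_mul]
      have h3 : ∫ t in Set.Ioi 0, ‖t ^ (((d : ℝ) + 2) / 2 - 1)‖ * ‖Real.exp (-(QQ ρ r * t))‖ =
          ∫ t in Set.Ioi 0, t ^ (((d : ℝ) + 2) / 2 - 1) * Real.exp (-(QQ ρ r * t)) := by
        refine setIntegral_congr_fun measurableSet_Ioi fun t ht => ?_
        rw [Real.norm_of_nonneg (Real.rpow_nonneg (le_of_lt ht) _),
          Real.norm_of_nonneg (Real.exp_nonneg _)]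
      rw [h3, hv, sqrt_pow hQ, Real.norm_of_nonneg (r := ((Real.sqrt (QQ ρ r))⁻¹) ^ (d + 2))
        (by positivity)]
      ring
  · have hH : ∀ t, HH d j ρ (r, t) = 0 := by
      intro t
      unfold HH
      by_cases h1 : pat j r
      · have h2 : ∑ i, r i = 0 := by
          by_contra h2; exact h ⟨h1, h2⟩
        rw [Set.indicator_of_mem (show r ∈ {r : Fin (d + 1) → ℝ | pat j r} from h1), h2]
        ring
      · rw [Set.indicator_of_notMem (show r ∉ {r : Fin (d + 1) → ℝ | pat j r} from h1), zero_mul]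
    have hZ : ZZ d j ρ r = 0 := by
      unfold ZZ
      by_cases h1 : pat j r
      · have h2 : ∑ i, r i = 0 := by
          by_contra h2; exact h ⟨h1, h2⟩
        rw [Set.indicator_of_mem (show r ∈ {r : Fin (d + 1) → ℝ | pat j r} from h1), h2]
        ring
      · rw [Set.indicator_of_notMem (show r ∉ {r : Fin (d + 1) → ℝ | pat j r} from h1)]
    simp only [hH, hZ]
    simp

theorem HH_int {d j : ℕ} {ρ : ℝ} (hρ : 0 < ρ) (hZ : Integrable (ZZ d j ρ)) :
    Integrable (HH d j ρ) ((volume : Measure (Fin (d + 1) → ℝ)).prod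
      (volume.restrict (Set.Ioi (0 : ℝ)))) := by
  rw [integrable_prod_iff (HH_meas d j ρ).aestronglyMeasurable]
  refine ⟨Filter.Eventually.of_forall fun r => (HH_slice hρ r).1, ?_⟩
  simp only [(HH_slice hρ _).2.2]
  exact hZ.norm.const_mul _

theorem HH_inner {d j : ℕ} {ρ t : ℝ} (ht : 0 < t) :
    ∫ r, HH d j ρ (r, t) = t ^ (((d : ℝ) + 2) / 2 - 1) * JJ t j (d + 1) (EE t ρ) 0 := by
  unfold JJ
  rw [← integral_const_mul]
  refine integral_congr_ae (Filter.Eventually.of_forall fun r => ?_)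
  simp only
  rw [prod_kk]
  unfold HH
  by_cases h1 : pat j r
  · rw [Set.indicator_of_mem (show r ∈ {r : Fin (d + 1) → ℝ | pat j r} from h1),
      Set.indicator_of_mem (show r ∈ {r : Fin (d + 1) → ℝ | pat j r} from h1)]
    unfold EE QQ
    have h2 : Real.exp (-(((∑ i, r i) ^ 2 * ρ ^ 2 + ∑ i, r i ^ 2) * t)) =
      Real.exp (-t * ∑ i, r i ^ 2) * Real.exp (-t * ((0 + ∑ i, r i) * ρ) ^ 2) := by
      rw [← Real.exp_add]; congr 1; ring
    simp only
    rw [h2, zero_add]
    ring
  · rw [Set.indicator_of_notMem (show r ∉ {r : Fin (d + 1) → ℝ | pat j r} from h1),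
      Set.indicator_of_notMem (show r ∉ {r : Fin (d + 1) → ℝ | pat j r} from h1)]
    ring

theorem t_QP : S_QP := by
  intro d j hj ρ hρ h1 h2
  obtain ⟨hZ, hdiff⟩ := ZZ_int (d := d) (j := j) (by omega) ρ h1 h2
  have hH := HH_int hρ hZ
  have hΓ : 0 < Real.Gamma (((d : ℝ) + 2) / 2) := Real.Gamma_pos_of_pos (by positivity)
  have h3 : Real.Gamma (((d : ℝ) + 2) / 2) * ∫ r, ZZ d j ρ r =
      ∫ t in Set.Ioi (0 : ℝ), ∫ r, HH d j ρ (r, t) := by
    rw [← integral_const_mul, ← integral_prod_symm _ hH, integral_prod _ hH]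
    refine integral_congr_ae (Filter.Eventually.of_forall fun r => ?_)
    exact (HH_slice hρ r).2.1.symm
  have h4 : ∀ t : ℝ, 0 < t → 0 < ∫ r, HH d j ρ (r, t) := by
    intro t ht
    rw [HH_inner ht]
    exact mul_pos (Real.rpow_pos_of_pos ht _) (JJ_pos ht hj (EE_bm ht ρ) (EE_good t ρ))
  have h5 : 0 < ∫ t in Set.Ioi (0 : ℝ), ∫ r, HH d j ρ (r, t) := by
    rw [integral_pos_iff_support_of_nonneg_ae ?_ hH.integral_prod_right]
    · refine lt_of_lt_of_le ?_ (measure_mono (s := Set.Ioi (0 : ℝ)) ?_)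
      · rw [Measure.restrict_apply_self, Real.volume_Ioi]; exact ENNReal.zero_lt_top
      · intro t ht
        rw [Function.mem_support]
        exact (h4 t ht).ne'
    · refine (ae_restrict_iff' measurableSet_Ioi).2 (Filter.Eventually.of_forall fun t ht => ?_)
      exact (h4 t ht).le
  rw [← h3] at h5
  have h6 := (mul_pos_iff_of_pos_left hΓ).1 h5
  rw [← hdiff] at h6
  linarith

end Pool.Agent.K1H16.RP
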